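import Pool.Agent.H92.EQ.TF1

/-! Row A2 of `eqd_modules`: symmetry of the mixed determinant. -/

set_option autoImplicit false

namespace Pool.Agent.H79.EQ

open Pool.Agent.H92.EQ
open scoped BigOperators

theorem pf_A2 : T_A2 := by
  intro ι _ _ p m S H π
  obtain ⟨ρ, hρ⟩ : ∃ ρ : (Fin p ⊕ Fin m) ≃ (Fin p ⊕ Fin m),
      ρ = Equiv.sumCongr (Equiv.refl (Fin p)) π := ⟨_, rfl⟩
  obtain ⟨Φ, hΦ⟩ : ∃ Φ : ((Fin p ⊕ Fin m) ≃ ι) ≃ ((Fin p ⊕ Fin m) ≃ ι),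
      ∀ e, Φ e = ρ.symm.trans e :=
    ⟨Equiv.equivCongr ρ (Equiv.refl ι), fun e => by ext x; rfl⟩
  have hl : ∀ e i, Φ e (Sum.inl i) = e (Sum.inl i) := by
    intro e i
    rw [hΦ, Equiv.trans_apply, hρ]
    rfl
  have hr : ∀ e j, Φ e (Sum.inr (π j)) = e (Sum.inr j) := by
    intro e j
    have h1 : ρ (Sum.inr j) = Sum.inr (π j) := by rw [hρ]; rfl
    rw [hΦ, Equiv.trans_apply, ← h1, Equiv.symm_apply_apply]
  unfold mixD
  symm
  rw [← Φ.sum_comp]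
  refine Finset.sum_congr rfl fun e _ => ?_
  rw [← Φ.sum_comp]
  refine Finset.sum_congr rfl fun e' _ => ?_
  have hs : Equiv.Perm.sign ((Φ e).trans (Φ e').symm) = Equiv.Perm.sign (e.trans e'.symm) := by
    have h2 : (Φ e).trans (Φ e').symm = (ρ.symm.trans (e.trans e'.symm)).trans ρ := by
      rw [hΦ, hΦ]
      ext x
      rfl
    rw [h2]
    exact Equiv.Perm.sign_symm_trans_trans (e.trans e'.symm) ρ
  rw [hs]
  simp only [hl]
  congr 1
  rw [← Equiv.prod_comp π fun j => H j (Φ e (Sum.inr j)) (Φ e' (Sum.inr j))]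
  exact Finset.prod_congr rfl fun j _ => by rw [hr, hr]

end Pool.Agent.H79.EQ
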