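import Pool.Agent.H92.EQ.TF2

/-! Row D9 of `eqd_modules`: pull-back of an exterior product with a Hessian. -/

set_option autoImplicit false

namespace Pool.Agent.H79.EQ

open Pool.Agent.H92.EQ
open scoped BigOperators ComplexConjugate ContDiff ComplexOrder

theorem d9_ins {ι : Type} [Fintype ι] {p : ℕ} (a : Fin (p + 1)) (F : (Fin (p + 1) → ι) → ℂ) :
    ∑ I', F I' = ∑ i : ι, ∑ I'' : Fin p → ι, F (a.insertNth i I'') := by
  rw [← (Fin.insertNthEquiv (fun _ => ι) a).sum_comp, Fintype.sum_prod_type]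
  rfl

theorem d9_comm {α β γ δ : Type} [Fintype α] [Fintype β] [Fintype γ] [Fintype δ]
    (F : α → β → γ → δ → ℂ) :
    ∑ x, ∑ y, ∑ a, ∑ b, F x y a b = ∑ a, ∑ b, ∑ x, ∑ y, F x y a b := by
  have h1 : ∀ x, ∑ y, ∑ a, ∑ b, F x y a b = ∑ a, ∑ b, ∑ y, F x y a b := by
    intro x
    rw [Finset.sum_comm]
    exact Finset.sum_congr rfl fun a _ => Finset.sum_comm
  rw [Finset.sum_congr rfl fun x _ => h1 x, Finset.sum_comm]
  exact Finset.sum_congr rfl fun a _ => Finset.sum_comm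

theorem d9_key {ι κ : Type} [Fintype ι] {p : ℕ} (S : (Fin p → ι) → (Fin p → ι) → ℂ)
    (H g : ι → ι → ℂ) (g' : ι → κ → ℂ) (I J : Fin (p + 1) → κ) (a b : Fin (p + 1)) :
    ∑ I' : Fin (p + 1) → ι, ∑ J' : Fin (p + 1) → ι,
      (S (I' ∘ a.succAbove) (J' ∘ b.succAbove) * H (I' a) (J' b)) *
        (∏ l, g' (I' l) (I l)) * ∏ l, conj (g' (J' l) (J l)) =
    (∑ I'' : Fin p → ι, ∑ J'' : Fin p → ι, S I'' J'' *
      (∏ l, g' (I'' l) ((I ∘ a.succAbove) l)) * ∏ l, conj (g' (J'' l) ((J ∘ b.succAbove) l))) *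
      ∑ i, ∑ j, g' i (I a) * conj (g' j (J b)) * H i j := by
  rw [d9_ins a]
  have h1 : ∀ (i : ι) (I'' : Fin p → ι),
      ∑ J' : Fin (p + 1) → ι,
      (S ((a.insertNth i I'' : Fin (p + 1) → ι) ∘ a.succAbove) (J' ∘ b.succAbove) *
        H ((a.insertNth i I'' : Fin (p + 1) → ι) a) (J' b)) *
        (∏ l, g' ((a.insertNth i I'' : Fin (p + 1) → ι) l) (I l)) *
        ∏ l, conj (g' (J' l) (J l)) =
      ∑ j : ι, ∑ J'' : Fin p → ι, (S I'' J'' * (∏ l, g' (I'' l) ((I ∘ a.succAbove) l)) *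
        ∏ l, conj (g' (J'' l) ((J ∘ b.succAbove) l))) * (g' i (I a) * conj (g' j (J b)) * H i j) := by
    intro i I''
    rw [d9_ins b]
    refine Finset.sum_congr rfl fun j _ => Finset.sum_congr rfl fun J'' _ => ?_
    rw [Fin.prod_univ_succAbove _ a, Fin.prod_univ_succAbove _ b]
    have e1 : (a.insertNth i I'' : Fin (p + 1) → ι) ∘ a.succAbove = I'' := by
      funext l
      exact Fin.insertNth_apply_succAbove (α := fun _ => ι) a i I'' l
    have e2 : (b.insertNth j J'' : Fin (p + 1) → ι) ∘ b.succAbove = J'' := by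
      funext l
      exact Fin.insertNth_apply_succAbove (α := fun _ => ι) b j J'' l
    rw [e1, e2]
    simp only [Fin.insertNth_apply_same, Fin.insertNth_apply_succAbove, Function.comp_apply]
    ring
  rw [Finset.sum_congr rfl fun i _ => Finset.sum_congr rfl fun I'' _ => h1 i I'']
  rw [Finset.sum_comm, Finset.sum_mul]
  refine Finset.sum_congr rfl fun I'' _ => ?_
  rw [Finset.sum_mul]
  have h2 : ∀ i : ι, ∑ j : ι, ∑ J'' : Fin p → ι, (S I'' J'' *
      (∏ l, g' (I'' l) ((I ∘ a.succAbove) l)) *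
        ∏ l, conj (g' (J'' l) ((J ∘ b.succAbove) l))) * (g' i (I a) * conj (g' j (J b)) * H i j) =
      ∑ J'' : Fin p → ι, ∑ j : ι, (S I'' J'' * (∏ l, g' (I'' l) ((I ∘ a.succAbove) l)) *
        ∏ l, conj (g' (J'' l) ((J ∘ b.succAbove) l))) *
        (g' i (I a) * conj (g' j (J b)) * H i j) := fun i => Finset.sum_comm
  rw [Finset.sum_congr rfl fun i _ => h2 i, Finset.sum_comm]
  refine Finset.sum_congr rfl fun J'' _ => ?_
  rw [Finset.mul_sum]
  refine Finset.sum_congr rfl fun i _ => ?_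
  rw [Finset.mul_sum]

theorem pf_D9 (hW4 : T_W4) : T_D9 := by
  intro ι κ _ _ _ _ p G S f z hf
  funext I J
  have h4 := hW4 ι κ G f z hf
  unfold pull wedge
  have h1 : ∀ I' J' : Fin (p + 1) → ι,
      (((p + 1 : ℂ) ^ 2)⁻¹ * ∑ a : Fin (p + 1), ∑ b : Fin (p + 1),
        (-1 : ℂ) ^ ((a : ℕ) + (b : ℕ)) * S (ev G z) (I' ∘ a.succAbove) (J' ∘ b.succAbove) *
          hess f (ev G z) (I' a) (J' b)) * (∏ l, jac G z (I' l) (I l)) *
        ∏ l, conj (jac G z (J' l) (J l)) =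
      ∑ a : Fin (p + 1), ∑ b : Fin (p + 1), ((p + 1 : ℂ) ^ 2)⁻¹ *
        ((-1 : ℂ) ^ ((a : ℕ) + (b : ℕ)) *
        ((S (ev G z) (I' ∘ a.succAbove) (J' ∘ b.succAbove) * hess f (ev G z) (I' a) (J' b)) *
        (∏ l, jac G z (I' l) (I l)) * ∏ l, conj (jac G z (J' l) (J l)))) := by
    intro I' J'
    rw [Finset.mul_sum, Finset.sum_mul, Finset.sum_mul]
    refine Finset.sum_congr rfl fun a _ => ?_
    rw [Finset.mul_sum, Finset.sum_mul, Finset.sum_mul]
    refine Finset.sum_congr rfl fun b _ => ?_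
    ring
  rw [Finset.sum_congr rfl fun I' _ => Finset.sum_congr rfl fun J' _ => h1 I' J', d9_comm,
    Finset.mul_sum]
  refine Finset.sum_congr rfl fun a _ => ?_
  rw [Finset.mul_sum]
  refine Finset.sum_congr rfl fun b _ => ?_
  simp only [← Finset.mul_sum]
  rw [d9_key (S (ev G z)) (hess f (ev G z)) (hess f (ev G z)) (jac G z) I J a b, ← h4]
  ring

end Pool.Agent.H79.EQ
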