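import Pool.Agent.H92.EQ.TF2

/-! Row P6 of `eqd_modules`: exterior product inside `pair`. -/

set_option autoImplicit false

namespace Pool.Agent.H79.EQ

open Pool.Agent.H92.EQ
open scoped BigOperators ComplexConjugate ContDiff ComplexOrder

theorem pf_P6 (hA3 : T_A3) : T_P6 := by
  intro N p q S w u φ
  have h1 : ∀ z, Q (fun z => wedge (S z) (hessR w z)) u z =
      Q S (Fin.cons (α := fun _ => (Fin N → ℂ) → ℝ) w u) z := by
    intro z
    unfold Q
    rw [hA3 (Fin N) p (q + 1) (S z) (hessR w z)]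
    congr 2
    have h2 : (fun j => hessR ((Fin.cons (α := fun _ => (Fin N → ℂ) → ℝ) w u :
        Fin (q + 1) → (Fin N → ℂ) → ℝ) j) z) =
        (Fin.cons (α := fun _ => Matrix (Fin N) (Fin N) ℂ) (hessR w z) (fun j => hessR (u j) z) :
          Fin (q + 1) → Matrix (Fin N) (Fin N) ℂ) := by
      funext j
      refine Fin.cases ?_ (fun i => ?_) j
      · simp
      · simp
    rw [h2]
    exact Fin.cons_snoc_eq_snoc_cons _ _ _
  unfold pair
  congr 1
  funext z
  rw [h1]

end Pool.Agent.H79.EQ
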