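import Pool.Agent.H92.EQ.TT

/-! Row TA of `eqd_modules`: restrictions to `{t} × C^N`. -/

set_option autoImplicit false

namespace Pool.Agent.H79.EQ

open Pool.Agent.H92.EQ
open scoped BigOperators ComplexConjugate ContDiff ComplexOrder Topology

/-- the linear inclusion `x ↦ (0, x)` -/
noncomputable def ciL (N : ℕ) : (Fin N → ℂ) →L[ℝ] (Fin (N + 1) → ℂ) :=
  ContinuousLinearMap.pi (Fin.cases (motive := fun _ => (Fin N → ℂ) →L[ℝ] ℂ) 0
    (fun i => ContinuousLinearMap.proj (R := ℝ) (φ := fun _ : Fin N => ℂ) i))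

theorem ciL_zero {N : ℕ} (x : Fin N → ℂ) : ciL N x 0 = 0 := rfl

theorem ciL_succ {N : ℕ} (x : Fin N → ℂ) (i : Fin N) : ciL N x i.succ = x i := rfl

theorem ct_z {N : ℕ} (t : ℂ) (x : Fin N → ℂ) : ct t x 0 = t := rfl

theorem ct_s {N : ℕ} (t : ℂ) (x : Fin N → ℂ) (i : Fin N) : ct t x i.succ = x i := rfl

theorem tl_ct {N : ℕ} (t : ℂ) (x : Fin N → ℂ) : tl (ct t x) = x := rfl

theorem ct_eq {N : ℕ} (t : ℂ) (x : Fin N → ℂ) : ct t x = ct t 0 + ciL N x := by
  funext j
  refine Fin.cases ?_ (fun i => ?_) j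
  · rw [Pi.add_apply, ciL_zero, ct_z, ct_z, add_zero]
  · rw [Pi.add_apply, ciL_succ, ct_s, ct_s, Pi.zero_apply, zero_add]

theorem hasFDerivAt_ct {N : ℕ} (t : ℂ) (x : Fin N → ℂ) :
    HasFDerivAt (ct t : (Fin N → ℂ) → (Fin (N + 1) → ℂ)) (ciL N) x := by
  have h : (ct t : (Fin N → ℂ) → (Fin (N + 1) → ℂ)) = fun x => ct t 0 + ciL N x :=
    funext fun x => ct_eq t x
  rw [h]
  exact (ciL N).hasFDerivAt.const_add _

theorem contDiff_ct {N : ℕ} (t : ℂ) :
    ContDiff ℝ ∞ (ct t : (Fin N → ℂ) → (Fin (N + 1) → ℂ)) := by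
  have h : (ct t : (Fin N → ℂ) → (Fin (N + 1) → ℂ)) = fun x => ct t 0 + ciL N x :=
    funext fun x => ct_eq t x
  rw [h]
  exact contDiff_const.add (ciL N).contDiff

theorem wd_ct {N : ℕ} {t : ℂ} {x : Fin N → ℂ} {f : (Fin (N + 1) → ℂ) → ℂ}
    (hf : DifferentiableAt ℝ f (ct t x)) (i : Fin N) :
    wd i (fun y => f (ct t y)) x = wd i.succ f (ct t x) ∧
      wdb i (fun y => f (ct t y)) x = wdb i.succ f (ct t x) := by
  have h := (hf.hasFDerivAt.comp x (hasFDerivAt_ct t x)).fderiv
  have h1 : ∀ a : ℂ, fderiv ℝ (fun y => f (ct t y)) x (Pi.single i a) =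
      fderiv ℝ f (ct t x) (Pi.single i.succ a) := by
    intro a
    rw [show (fun y => f (ct t y)) = f ∘ ct t from rfl, h, ContinuousLinearMap.comp_apply]
    congr 1
    funext j
    refine Fin.cases ?_ (fun k => ?_) j
    · rw [ciL_zero, Pi.single_eq_of_ne (Fin.succ_ne_zero i).symm]
    · rw [ciL_succ]
      by_cases hk : k = i
      · subst hk
        rw [Pi.single_eq_same, Pi.single_eq_same]
      · rw [Pi.single_eq_of_ne hk, Pi.single_eq_of_ne fun h => hk (Fin.succ_injective _ h)]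
  unfold wd wdb
  rw [h1, h1]
  exact ⟨rfl, rfl⟩

theorem wd_congr {ι : Type} [Fintype ι] [DecidableEq ι] {f g : (ι → ℂ) → ℂ} {z : ι → ℂ}
    (h : f =ᶠ[𝓝 z] g) (a : ι) : wd a f z = wd a g z := by
  unfold wd
  rw [h.fderiv_eq]

theorem isOpen_WV {N : ℕ} {V : Set ℂ} (hV : IsOpen V) : IsOpen (WV N V) := by
  have h1 : Continuous fun z : Fin (N + 1) → ℂ => z 0 := continuous_apply 0
  have h2 : Continuous (tl : (Fin (N + 1) → ℂ) → (Fin N → ℂ)) :=
    continuous_pi fun i => continuous_apply i.succ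
  exact (hV.preimage h1).inter (isOpen_compl_singleton.preimage h2)

theorem mem_WV {N : ℕ} {V : Set ℂ} {t : ℂ} (ht : t ∈ V) {x : Fin N → ℂ} (hx : x ≠ 0) :
    ct t x ∈ WV N V := ⟨ht, hx⟩

theorem ta_form {N p : ℕ} {V : Set ℂ} {t : ℂ} (hV : IsOpen V) (ht : t ∈ V)
    {S : Form (Fin (N + 1)) p} (hS : FormT V S) : ProjForm (res S t) := by
  have hd : ∀ I J, ∀ x : Fin N → ℂ, x ≠ 0 →
      DifferentiableAt ℝ (fun z => S z I J) (ct t x) := by
    intro I J x hx
    exact ((hS.cf.smooth I J).contDiffAt ((isOpen_WV hV).mem_nhds (mem_WV ht hx))).differentiableAt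
      (by simp)
  refine ⟨⟨?_, ?_, ?_, ?_, ?_, ?_⟩, ?_, ?_, ?_⟩
  · intro I J
    exact (hS.cf.smooth _ _).comp (contDiff_ct t).contDiffOn fun x hx => mem_WV ht hx
  · intro x hx π I J
    exact hS.cf.altL (ct t x) (mem_WV ht hx) π (fun l => (I l).succ) (fun l => (J l).succ)
  · intro x hx π I J
    exact hS.cf.altR (ct t x) (mem_WV ht hx) π (fun l => (I l).succ) (fun l => (J l).succ)
  · intro x hx c
    have hinj : Function.Injective fun (I : Fin p → Fin N) (l : Fin p) => (I l).succ := by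
      intro I J h
      funext l
      exact Fin.succ_injective _ (congrFun h l)
    have h := hS.psd (ct t x) (mem_WV ht hx)
      (Function.extend (fun (I : Fin p → Fin N) (l : Fin p) => (I l).succ) c 0)
    have he : ∀ I : Fin p → Fin N, Function.extend
        (fun (I : Fin p → Fin N) (l : Fin p) => (I l).succ) c 0 (fun l => (I l).succ) = c I :=
      fun I => hinj.extend_apply c 0 I
    have h0 : ∀ I' ∉ Set.range fun (I : Fin p → Fin N) (l : Fin p) => (I l).succ,
        Function.extend (fun (I : Fin p → Fin N) (l : Fin p) => (I l).succ) c 0 I' = 0 := by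
      intro I' hI'
      rw [Function.extend_apply' _ _ _ (fun ⟨I, hI⟩ => hI' ⟨I, hI⟩)]
      rfl
    refine h.trans_eq ?_
    symm
    refine Fintype.sum_of_injective (fun (I : Fin p → Fin N) (l : Fin p) => (I l).succ) hinj _ _
      (fun I' hI' => ?_) fun I => ?_
    · refine Finset.sum_eq_zero fun J' _ => ?_
      rw [h0 I' hI', zero_mul, zero_mul]
    · refine Fintype.sum_of_injective (fun (I : Fin p → Fin N) (l : Fin p) => (I l).succ) hinj _ _
        (fun J' hJ' => ?_) fun J => ?_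
      · rw [h0 J' hJ', map_zero, mul_zero, zero_mul]
      · rw [he I, he J]
        rfl
  · intro x hx I J
    refine (Finset.sum_congr rfl fun j _ => ?_).trans
      (hS.cf.closedL (ct t x) (mem_WV ht hx) (fun l => (I l).succ) (fun l => (J l).succ))
    congr 1
    exact (wd_ct (hd _ _ x hx) (I j)).1
  · intro x hx I J
    refine (Finset.sum_congr rfl fun j _ => ?_).trans
      (hS.cf.closedR (ct t x) (mem_WV ht hx) (fun l => (I l).succ) (fun l => (J l).succ))
    congr 1
    exact (wd_ct (hd _ _ x hx) (J j)).2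
  · intro l x hl hx I J
    have h := hS.hom l (ct t x) hl (mem_WV ht hx) (fun l => (I l).succ) (fun l => (J l).succ)
    rw [ct_z, tl_ct] at h
    have e1 : (∏ k : Fin p, if (I k).succ = 0 then (1 : ℂ) else l⁻¹) = (l⁻¹) ^ p := by
      rw [Finset.prod_congr rfl fun k _ => if_neg (Fin.succ_ne_zero (I k)), Finset.prod_const,
        Finset.card_univ, Fintype.card_fin]
    have e2 : (∏ k : Fin p, if (J k).succ = 0 then (1 : ℂ) else (conj l)⁻¹) =
        ((conj l)⁻¹) ^ p := by
      rw [Finset.prod_congr rfl fun k _ => if_neg (Fin.succ_ne_zero (J k)), Finset.prod_const,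
        Finset.card_univ, Fintype.card_fin]
    rw [e1, e2] at h
    have e3 : (l⁻¹) ^ p * ((conj l)⁻¹) ^ p = (((‖l‖ ^ (2 * p))⁻¹ : ℝ) : ℂ) := by
      rw [← mul_pow, ← mul_inv, Complex.mul_conj, Complex.normSq_eq_norm_sq, pow_mul, inv_pow]
      push_cast
      rfl
    rw [e3] at h
    exact h
  · intro x hx I J j
    have h := hS.kilL (ct t x) (mem_WV ht hx) (fun l => (I l).succ) (fun l => (J l).succ) j
    rw [Fin.sum_univ_succ, tl_ct, ct_z, zero_mul, zero_add] at h
    refine (Finset.sum_congr rfl fun a _ => ?_).trans h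
    rw [ct_s]
    have e : (fun l => (Function.update I j a l).succ) =
        Function.update (fun l => (I l).succ) j a.succ :=
      Function.comp_update Fin.succ I j a
    rw [← e]
    rfl
  · intro x hx I J j
    have h := hS.kilR (ct t x) (mem_WV ht hx) (fun l => (I l).succ) (fun l => (J l).succ) j
    rw [Fin.sum_univ_succ, tl_ct, ct_z, map_zero, zero_mul, zero_add] at h
    refine (Finset.sum_congr rfl fun a _ => ?_).trans h
    rw [ct_s]
    have e : (fun l => (Function.update J j a l).succ) =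
        Function.update (fun l => (J l).succ) j a.succ :=
      Function.comp_update Fin.succ J j a
    rw [← e]
    rfl

theorem pf_TA (hW6 : T_W6) : T_TA := by
  intro N p V t hV ht
  refine ⟨fun S hS => ta_form hV ht hS, fun c u hu => ⟨⟨?_, ?_⟩, ?_⟩⟩
  · exact hu.smooth.comp (contDiff_ct t).contDiffOn fun x hx => mem_WV ht hx
  · intro l z hl hz
    exact hu.hom l (ct t z) hl (mem_WV ht hz)
  · intro x hx
    have hf : ContDiffOn ℝ ∞ (fun z : Fin (N + 1) → ℂ => (u z : ℂ)) (WV N V) :=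
      Complex.ofRealCLM.contDiff.comp_contDiffOn hu.smooth
    have hop : IsOpen (WV N V) := isOpen_WV hV
    ext a b
    rw [Matrix.submatrix_apply]
    show wd a (fun w => wdb b (fun y => (u (ct t y) : ℂ)) w) x =
      wd a.succ (fun w => wdb b.succ (fun z => (u z : ℂ)) w) (ct t x)
    have h1 : (fun w => wdb b (fun y => (u (ct t y) : ℂ)) w) =ᶠ[𝓝 x]
        fun w => (fun z => wdb b.succ (fun z => (u z : ℂ)) z) (ct t w) := by
      filter_upwards [isOpen_compl_singleton.mem_nhds (show x ∈ ({0} : Set (Fin N → ℂ))ᶜ from hx)]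
        with w hw
      exact (wd_ct ((hf.contDiffAt (hop.mem_nhds (mem_WV ht hw))).differentiableAt
        (by simp)) b).2
    rw [wd_congr h1]
    have h2 := (hW6 (Fin (N + 1)) b.succ (fun z => (u z : ℂ)) (WV N V) hop hf).2
    exact (wd_ct ((h2.contDiffAt (hop.mem_nhds (mem_WV ht hx))).differentiableAt (by simp)) a).1

end Pool.Agent.H79.EQ
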